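import Pool.Agent.Lib.MP_ca56d1_nt.Main

namespace Pool.Agent.Results.MP_ca56d1_nt.Multiquadratic

open NumberField IsDedekindDomain

theorem result (K H : Type) [Field K] [NumberField K] [Field H] [NumberField H] [Algebra K H]
    [IsGalois K H] (hG : ∀ g : H ≃ₐ[K] H, g * g = 1)
    (S : Finset (HeightOneSpectrum (𝓞 K)))
    (hS : ∀ Q : HeightOneSpectrum (𝓞 H), Q.under (𝓞 K) ∉ S →
      Q.asIdeal.ramificationIdx (𝓞 K) = 1)
    (h3 : 3 ≤ Fintype.card (InfinitePlace K) + S.card)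
    (P : InfinitePlace H) (hP : P.IsUnramified K)
    (hy : P.IsReal ∨ (2 ≤ Fintype.card (InfinitePlace K) ∧
      ∃ y : K, (∀ q ∉ S, IsSquare (q.valuation K y)) ∧ ¬ IsSquare (algebraMap K H y))) :
    Pool.Agent.StarkStmt.Stark K S P := by
  refine Pool.Agent.Stark.stark_main hG S hS h3 P hP (hy.imp id fun h => h.1) ?_
  rcases hy with hr | ⟨-, y, h1, h2⟩
  · refine ⟨-1, ⟨by simp, fun q _ => by simp [Pool.Agent.Stark.og]⟩, ?_⟩
    rintro ⟨r, hr'⟩
    have h := congrArg (InfinitePlace.embedding_of_isReal hr) hr'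
    rw [map_neg, map_one, map_neg, map_one, map_mul] at h
    nlinarith [mul_self_nonneg (InfinitePlace.embedding_of_isReal hr r)]
  · have hy0 : y ≠ 0 := by
      rintro rfl
      exact h2 ⟨0, by simp⟩
    refine ⟨y, ⟨hy0, fun q hq => ?_⟩, h2⟩
    obtain ⟨t, ht⟩ := h1 q hq
    have ht0 : t ≠ 0 := by
      rintro rfl
      exact hy0 (by simpa using ht)
    refine ⟨-WithZero.log t, ?_⟩
    rw [Pool.Agent.Stark.og, Pool.Agent.Stark.ord, ht, WithZero.log_mul ht0 ht0]
    ring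

end Pool.Agent.Results.MP_ca56d1_nt.Multiquadratic
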