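import Pool.Agent.Lib.MP_ca56d1_nt.D.Main
import Pool.Agent.Lib.MP_ca56d1_nt.CD.Main
import Pool.Agent.Lib.MP_ca56d1_nt.UR.Asm

namespace Pool.Agent.Results.MP_ca56d1_nt.UnitRankOne

open NumberField IsDedekindDomain

theorem result (K H : Type) [Field K] [NumberField K] [Field H] [NumberField H] [Algebra K H]
    [IsAbelianGalois K H] (hK : Units.rank K = 1) (S : Finset (HeightOneSpectrum (𝓞 K)))
    (hS : ∀ Q : HeightOneSpectrum (𝓞 H), Q.under (𝓞 K) ∉ S →
      Q.asIdeal.ramificationIdx (𝓞 K) = 1)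
    (P : InfinitePlace H) (hP : Pool.Agent.StarkStmt.Split K P) :
    Pool.Agent.StarkStmt.Q1 K S P :=
  Pool.Agent.Stark.UR.unit_rank_one Pool.Agent.StarkD.stark_rq Pool.Agent.CD.stark_cc hK S hS P hP

end Pool.Agent.Results.MP_ca56d1_nt.UnitRankOne
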